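import Pool.Graph.R_seed8.Results.MP_090ff9_an.AvgShadowingEntropy

/-!
Entropy of covers for systems with average shadowing or almost specification.
-/

open Set Filter Topology MeasureTheory Finset
open Pool.Agent.Results.MP_090ff9_an.AvgShadowingEntropy

noncomputable section

namespace Pool.Agent.Helper92.Asp

/-- The words `w` of length `n` in `W` are such that the sets `{x | f^i x ∈ A (w i) for all i < n}`,
`w ∈ W`, cover `X`. -/
def IsJoinCover {X ι : Type*} (f : X → X) (A : ι → Set X) (n : ℕ) (W : Finset (Fin n → ι)) : Prop :=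
  ∀ x : X, ∃ w ∈ W, ∀ i : Fin n, f^[i] x ∈ A (w i)

/-- The least number of members of the join `A ∨ f⁻¹ A ∨ ... ∨ f⁻⁽ⁿ⁻¹⁾ A` which cover `X`. -/
def joinNumber {X ι : Type*} (f : X → X) (A : ι → Set X) (n : ℕ) : ℕ :=
  sInf {m | ∃ W : Finset (Fin n → ι), IsJoinCover f A n W ∧ W.card = m}

/-! ### counting words -/

theorem card_le_of_rare {ι : Type*} [Fintype ι] [DecidableEq ι] {K q : ℕ} {τ : ℝ} (h0 : 0 < τ)
    (h1 : τ < 1) (s : Fin K → ι) (S : Finset (Fin K → ι))
    (hS : ∀ v ∈ S, q * (Finset.univ.filter fun j => v j = s j).card ≤ K) :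
    (S.card : ℝ) * τ ^ K ≤ ((Fintype.card ι : ℝ) - 1 + τ ^ q) ^ K := by
  set t : ℝ := τ ^ q with ht
  have h2 : ∑ v : Fin K → ι, t ^ (Finset.univ.filter fun j => v j = s j).card
      = ((Fintype.card ι : ℝ) - 1 + t) ^ K := by
    have h2 : ∀ v : Fin K → ι, t ^ (Finset.univ.filter fun j => v j = s j).card
        = ∏ j, (if v j = s j then t else 1) := by
      intro v
      rw [Finset.prod_ite]
      simp
    simp_rw [h2]
    have h3 := Finset.prod_univ_sum (fun _ : Fin K => (Finset.univ : Finset ι))
      (fun j b => if b = s j then t else (1 : ℝ))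
    rw [Fintype.piFinset_univ] at h3
    rw [← h3]
    have h4 : ∀ j, ∑ b : ι, (if b = s j then t else (1 : ℝ)) = (Fintype.card ι : ℝ) - 1 + t := by
      intro j
      have h5 : ∀ b : ι, (if b = s j then t else (1 : ℝ)) = 1 + (if b = s j then t - 1 else 0) := by
        intro b
        split_ifs <;> ring
      simp_rw [h5]
      rw [Finset.sum_add_distrib, Finset.sum_ite_eq' Finset.univ (s j)]
      simp
      ring
    simp_rw [h4]
    simp
  rw [← h2, ← nsmul_eq_mul, ← Finset.sum_const]
  calc ∑ _v ∈ S, τ ^ K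
      ≤ ∑ v ∈ S, t ^ (Finset.univ.filter fun j => v j = s j).card := by
        apply Finset.sum_le_sum
        intro v hv
        rw [ht, ← pow_mul]
        exact pow_le_pow_of_le_one h0.le h1.le (hS v hv)
    _ ≤ _ := Finset.sum_le_sum_of_subset_of_nonneg (Finset.subset_univ S)
        (fun v _ _ => by positivity)

/-- choice of the parameters -/
theorem exists_params (k : ℕ) (hk : 2 ≤ k) : ∃ (τ : ℝ) (q : ℕ), 0 < τ ∧ τ < 1 ∧ 1 ≤ q ∧
    (k : ℝ) - 1 + τ ^ q < k * τ := by
  have hk' : (2 : ℝ) ≤ k := by exact_mod_cast hk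
  have hk0 : (0 : ℝ) < k := by linarith
  refine ⟨1 - 1 / (2 * k), ?_⟩
  have h1 : (0 : ℝ) < 1 / (2 * k) := by positivity
  have h2 : 1 / (2 * (k : ℝ)) ≤ 1 / 4 := by
    apply one_div_le_one_div_of_le (by norm_num)
    linarith
  obtain ⟨q, hq⟩ := exists_pow_lt_of_lt_one (show (0 : ℝ) < 1 / 2 by norm_num)
    (show 1 - 1 / (2 * (k : ℝ)) < 1 by linarith)
  refine ⟨q + 1, by linarith, by linarith, by omega, ?_⟩
  have h3 : (1 - 1 / (2 * (k : ℝ))) ^ (q + 1) ≤ (1 - 1 / (2 * (k : ℝ))) ^ q :=
    pow_le_pow_of_le_one (by linarith) (by linarith) (Nat.le_succ q)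
  have h4 : (k : ℝ) * (1 - 1 / (2 * k)) = k - 1 / 2 := by
    field_simp
  rw [h4]
  linarith

/-! ### points visiting given sets at the same times -/

variable {X : Type*} [MetricSpace X]

theorem exists_visits [CompactSpace X] [MeasurableSpace X] [BorelSpace X] {ι : Type*} [Fintype ι]
    (f : X → X) (hf : Continuous f) (a : ι → X) (ha : ∀ i, a i ∈ measureCenter f) {ρ : ℝ}
    (hρ : 0 < ρ) : ∃ c > 0, ∀ M : ℕ, ∃ x : ι → X,
      c * M ≤ (((range M).filter fun t => ∀ i, dist (f^[t] (x i)) (a i) < ρ).card : ℝ) := by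
  classical
  have hmeas : ∀ i, ∃ μ : Measure X, IsProbabilityMeasure μ ∧ μ.map f = μ ∧
      μ (Metric.ball (a i) ρ) ≠ 0 := by
    intro i
    by_contra hcon
    apply ha i
    refine ⟨Metric.ball (a i) ρ, ⟨Metric.isOpen_ball, ?_⟩, Metric.mem_ball_self hρ⟩
    intro μ hμ hinv
    by_contra h
    exact hcon ⟨μ, hμ, hinv, h⟩
  choose μ hμ hinv hpos using hmeas
  have hmp : ∀ i, MeasurePreserving f (μ i) (μ i) := fun i => ⟨hf.measurable, hinv i⟩
  set P := Measure.pi μ with hP
  set B : Set (ι → X) := Set.pi Set.univ fun i => Metric.ball (a i) ρ with hB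
  have hBm : MeasurableSet B := MeasurableSet.univ_pi fun i => measurableSet_ball
  have hPB : P B ≠ 0 := by
    rw [hP, hB, Measure.pi_pi]
    exact Finset.prod_ne_zero_iff.2 fun i _ => hpos i
  have hT : ∀ t : ℕ, MeasurePreserving (fun x : ι → X => fun i => f^[t] (x i)) P P := fun t =>
    measurePreserving_pi μ μ fun i => (hmp i).iterate t
  have hc0 : 0 < P.real B := ENNReal.toReal_pos hPB (measure_ne_top _ _)
  refine ⟨P.real B, hc0, fun M => ?_⟩
  let g : (ι → X) → ℝ := fun x => ∑ t ∈ range M,
    B.indicator (fun _ => (1 : ℝ)) (fun i => f^[t] (x i))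
  have hint : ∀ t : ℕ, Integrable (fun x : ι → X =>
      B.indicator (fun _ => (1 : ℝ)) (fun i => f^[t] (x i))) P := by
    intro t
    have h1 : Integrable (B.indicator (fun _ => (1 : ℝ))) P := (integrable_const 1).indicator hBm
    exact (hT t).integrable_comp_of_integrable h1
  have hg : ∫ x, g x ∂P = P.real B * M := by
    rw [integral_finsetSum _ (fun t _ => hint t)]
    have h1 : ∀ t ∈ range M, ∫ x, B.indicator (fun _ => (1 : ℝ)) (fun i => f^[t] (x i)) ∂P =
        P.real B := by
      intro t _
      have h2 := integral_map (μ := P) (φ := fun x : ι → X => fun i => f^[t] (x i))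
        (f := B.indicator (fun _ => (1 : ℝ))) (hT t).measurable.aemeasurable
        (((measurable_const.indicator hBm).aestronglyMeasurable))
      rw [(hT t).map_eq] at h2
      rw [← h2, integral_indicator hBm]
      simp
    rw [Finset.sum_congr rfl h1, Finset.sum_const, Finset.card_range, nsmul_eq_mul, mul_comm]
  obtain ⟨x, hx⟩ := exists_integral_le (μ := P) (f := g)
    (integrable_finsetSum _ fun t _ => hint t)
  rw [hg] at hx
  refine ⟨x, hx.trans (le_of_eq ?_)⟩
  simp only [g]
  rw [Finset.card_filter]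
  push_cast
  refine Finset.sum_congr rfl fun t _ => ?_
  rw [Set.indicator_apply]
  congr 1
  simp only [hB, Set.mem_univ_pi, Metric.mem_ball]

/-- The main counting argument. -/
theorem card_join_ge {ι : Type*} [Fintype ι] [DecidableEq ι] [Nonempty ι] (f : X → X)
    {A : ι → Set X} {a : ι → X} {ρ c e τ : ℝ} {q M : ℕ} (hρ : 0 < ρ) (hc : 0 < c)
    (hA : ∀ i, ∀ y, dist y (a i) < 2 * ρ → y ∉ A i) (x : ι → X)
    (hx : c * M ≤ (((range M).filter fun t => ∀ i, dist (f^[t] (x i)) (a i) < ρ).card : ℝ))
    (hM : 1 ≤ M) (hS : Star f e M) (hq : 1 ≤ q) (he : e = ρ * c / (Fintype.card ι * q))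
    (hτ0 : 0 < τ) (hτ1 : τ < 1) {K n : ℕ} (hK : 1 ≤ K) (hn : K * M ≤ n)
    {W : Finset (Fin n → ι)} (hW : IsJoinCover f A n W) :
    ((Fintype.card ι : ℝ) * τ) ^ K ≤ W.card * ((Fintype.card ι : ℝ) - 1 + τ ^ q) ^ K := by
  set k := Fintype.card ι with hk
  have hk0 : 0 < k := Fintype.card_pos
  have hk0' : (0 : ℝ) < k := by exact_mod_cast hk0
  have hq0 : (0 : ℝ) < q := by exact_mod_cast hq
  have hM0 : (0 : ℝ) < M := by exact_mod_cast hM
  obtain ⟨i₀⟩ := ‹Nonempty ι›
  set T : Finset ℕ := (range M).filter fun t => ∀ i, dist (f^[t] (x i)) (a i) < ρ with hT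
  let p : (Fin K → ι) → ℕ → X := fun w j => if h : j < K then x (w ⟨j, h⟩) else x i₀
  choose z hz using fun w : Fin K → ι => hS K hK (p w)
  choose C hCW hC using fun w : Fin K → ι => hW (z w)
  -- a rarely used symbol in every block
  let C' : (Fin n → ι) → ℕ → ι := fun D i => if h : i < n then D ⟨i, h⟩ else i₀
  have hs : ∀ (D : Fin n → ι) (j : Fin K), ∃ s : ι,
      T.card ≤ k * (T.filter fun t => C' D (j * M + t) = s).card := by
    intro D j
    by_contra hcon
    push Not at hcon
    have h1 := Finset.card_eq_sum_card_fiberwise (f := fun t => C' D (j * M + t)) (s := T)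
      (t := Finset.univ) (fun _ _ => Finset.mem_univ _)
    have h2 : ∑ s : ι, k * (T.filter fun t => C' D (j * M + t) = s).card < ∑ _s : ι, T.card :=
      Finset.sum_lt_sum_of_nonempty ⟨i₀, Finset.mem_univ _⟩ fun s _ => hcon s
    rw [← Finset.mul_sum, ← h1, Finset.sum_const, smul_eq_mul] at h2
    exact lt_irrefl _ h2
  choose s hs using hs
  have hrare : ∀ (D : Fin n → ι) (w : Fin K → ι), C w = D →
      q * (Finset.univ.filter fun j => w j = s D j).card ≤ K := by
    intro D w hD
    have h1 := hz w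
    rw [show ∑ i ∈ range (K * M), dist (f^[i] (z w)) (f^[i % M] (p w (i / M))) =
        ∑ j ∈ range K, ∑ t ∈ range M, dist (f^[j * M + t] (z w)) (f^[t] (p w j)) by
      rw [← sum_blocks (fun j t => dist (f^[j * M + t] (z w)) (f^[t] (p w j))) hM K]
      refine Finset.sum_congr rfl fun i _ => ?_
      rw [Nat.div_add_mod']] at h1
    rw [Finset.sum_range fun j => ∑ t ∈ range M, dist (f^[j * M + t] (z w)) (f^[t] (p w j))] at h1
    have h2 : ∑ _j ∈ Finset.univ.filter (fun j => w j = s D j), ρ * (c * M / k) ≤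
        ∑ j : Fin K, ∑ t ∈ range M, dist (f^[j * M + t] (z w)) (f^[t] (p w j)) := by
      refine le_trans (Finset.sum_le_sum fun j hj => ?_)
        (Finset.sum_le_sum_of_subset_of_nonneg (Finset.subset_univ _)
          (fun j _ _ => Finset.sum_nonneg fun t _ => dist_nonneg))
      have hj' : w j = s D j := (Finset.mem_filter.1 hj).2
      have hp : p w j = x (s D j) := by
        simp only [p, j.2, dif_pos]
        rw [← hj']
      have h3 : c * M / k ≤ ((T.filter fun t => C' D (j * M + t) = s D j).card : ℝ) := by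
        rw [div_le_iff₀ hk0', mul_comm _ (k : ℝ)]
        refine hx.trans ?_
        exact_mod_cast hs D j
      calc ρ * (c * M / k) ≤ ρ * ((T.filter fun t => C' D (j * M + t) = s D j).card : ℝ) :=
            mul_le_mul_of_nonneg_left h3 hρ.le
        _ = ∑ _t ∈ T.filter (fun t => C' D (j * M + t) = s D j), ρ := by
            rw [Finset.sum_const, nsmul_eq_mul, mul_comm]
        _ ≤ ∑ t ∈ T.filter (fun t => C' D (j * M + t) = s D j),
              dist (f^[j * M + t] (z w)) (f^[t] (p w j)) := by
            refine Finset.sum_le_sum fun t ht => ?_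
            obtain ⟨htT, htC⟩ := Finset.mem_filter.1 ht
            obtain ⟨htM, htv⟩ := Finset.mem_filter.1 htT
            have htM' : t < M := Finset.mem_range.1 htM
            have hlt : j * M + t < n := by
              have h4 : (j : ℕ) * M + M ≤ K * M := by
                calc (j : ℕ) * M + M = (j + 1) * M := by ring
                  _ ≤ K * M := Nat.mul_le_mul_right M j.2
              omega
            have hmem : f^[j * M + t] (z w) ∈ A (s D j) := by
              have h5 := hC w ⟨j * M + t, hlt⟩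
              rw [hD] at h5
              have h6 : C' D (j * M + t) = D ⟨j * M + t, hlt⟩ := by
                simp only [C', hlt, dif_pos]
              rw [← htC, h6]
              exact h5
            by_contra hcon
            push Not at hcon
            rw [hp] at hcon
            refine hA (s D j) _ ?_ hmem
            have h7 := dist_triangle (f^[j * M + t] (z w)) (f^[t] (x (s D j))) (a (s D j))
            have h8 := htv (s D j)
            linarith
        _ ≤ _ := Finset.sum_le_sum_of_subset_of_nonneg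
            ((Finset.filter_subset _ _).trans (Finset.filter_subset _ _))
            (fun t _ _ => dist_nonneg)
    rw [Finset.sum_const, nsmul_eq_mul] at h2
    have h3 := h2.trans h1.le
    rw [he] at h3
    have h4 : ((Finset.univ.filter fun j => w j = s D j).card : ℝ) * (ρ * (c * M / k)) =
        (q * ((Finset.univ.filter fun j => w j = s D j).card : ℝ)) * (ρ * c * M / (k * q)) := by
      field_simp
    have h5 : ρ * c / (k * q) * ((K * M : ℕ) : ℝ) = K * (ρ * c * M / (k * q)) := by
      push_cast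
      field_simp
    rw [h4, h5] at h3
    have h6 : 0 < ρ * c * M / (k * q) := by positivity
    have h7 := le_of_mul_le_mul_right h3 h6
    exact_mod_cast h7
  -- count
  have h1 : (Finset.univ : Finset (Fin K → ι)).card = k ^ K := by
    simp [hk]
  have h2 : ((Finset.univ : Finset (Fin K → ι)).card : ℝ) =
      ∑ D ∈ W, ((Finset.univ.filter fun w => C w = D).card : ℝ) := by
    have h3 := Finset.card_eq_sum_card_fiberwise (f := C) (s := Finset.univ) (t := W)
      (fun w _ => hCW w)
    rw [h3]
    push_cast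
    rfl
  rw [h1] at h2
  push_cast at h2
  rw [mul_pow, h2, Finset.sum_mul, ← nsmul_eq_mul, ← Finset.sum_const]
  refine Finset.sum_le_sum fun D _ => ?_
  exact card_le_of_rare hτ0 hτ1 (s D) _ fun w hw => hrare D w (Finset.mem_filter.1 hw).2

/-- The three properties give free concatenation of long blocks, in average. -/
theorem star_of_P [CompactSpace X] (f : X → X) (hP : ASP f ∨ AASP f ∨ AlmostSpec f) {e : ℝ}
    (he : 0 < e) : ∃ M : ℕ, 1 ≤ M ∧ Star f e M := by
  rcases hP with h | h | h
  · exact star_of_ASP f h he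
  · exact star_of_AASP f h he
  · exact star_of_almostSpec f h he

/-- Covers by sets none of which is dense in the measure center have positive entropy. -/
theorem join_growth [CompactSpace X] [MeasurableSpace X] [BorelSpace X] {ι : Type*} [Finite ι]
    (hne : Nonempty ι) (f : X → X) (hf : Continuous f) (hP : ASP f ∨ AASP f ∨ AlmostSpec f)
    (A : ι → Set X) (hcov : ∀ x, ∃ i, x ∈ A i)
    (hA : ∀ i, ∃ a ∈ measureCenter f, a ∉ closure (A i)) :
    ∃ h > 0, ∀ᶠ n : ℕ in atTop, Real.exp (h * n) ≤ joinNumber f A n := by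
  classical
  have := Fintype.ofFinite ι
  choose a ha haA using hA
  -- at least two indices
  obtain ⟨i₀⟩ := hne
  have hk2 : 2 ≤ Fintype.card ι := by
    by_contra hlt
    have h1 : Fintype.card ι ≤ 1 := by omega
    have h2 : Subsingleton ι := Fintype.card_le_one_iff_subsingleton.1 h1
    apply haA i₀
    obtain ⟨j, hj⟩ := hcov (a i₀)
    rw [Subsingleton.elim j i₀] at hj
    exact subset_closure hj
  have hne : Nonempty ι := ⟨i₀⟩
  -- the radius
  have hrad : ∀ i, ∃ r > 0, ∀ y, dist y (a i) < r → y ∉ A i := by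
    intro i
    obtain ⟨r, hr, hball⟩ := Metric.isOpen_iff.1 isClosed_closure.isOpen_compl (a i) (haA i)
    exact ⟨r, hr, fun y hy hyA => hball hy (subset_closure hyA)⟩
  choose r hr0 hr using hrad
  obtain ⟨ρ, hρ, hρr⟩ : ∃ ρ > 0, ∀ i, 2 * ρ ≤ r i := by
    have h1 := Finset.exists_mem_eq_inf' (s := Finset.univ) ⟨i₀, Finset.mem_univ _⟩ r
    refine ⟨(Finset.univ.inf' ⟨i₀, Finset.mem_univ _⟩ r) / 2, ?_, fun i => ?_⟩
    · obtain ⟨j, -, hj⟩ := h1
      rw [hj]
      exact half_pos (hr0 j)
    · have := Finset.inf'_le r (Finset.mem_univ i)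
      linarith
  have hA' : ∀ i, ∀ y, dist y (a i) < 2 * ρ → y ∉ A i := fun i y hy =>
    hr i y (hy.trans_le (hρr i))
  obtain ⟨c, hc, hvis⟩ := exists_visits f hf a ha hρ
  obtain ⟨τ, q, hτ0, hτ1, hq, hτq⟩ := exists_params (Fintype.card ι) hk2
  set k : ℝ := (Fintype.card ι : ℝ) with hk
  have hk0 : 0 < k := by
    rw [hk]
    exact_mod_cast Fintype.card_pos
  have hq0 : (0 : ℝ) < q := by exact_mod_cast hq
  obtain ⟨M, hM, hS⟩ := star_of_P f hP (e := ρ * c / (Fintype.card ι * q)) (by positivity)
  obtain ⟨x, hx⟩ := hvis M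
  have hM0 : (0 : ℝ) < M := by exact_mod_cast hM
  set g : ℝ := k * τ / (k - 1 + τ ^ q) with hg
  have hk1 : 1 ≤ k := by
    rw [hk]
    exact_mod_cast (by omega : 1 ≤ Fintype.card ι)
  have hden : 0 < k - 1 + τ ^ q := by
    have : 0 < τ ^ q := by positivity
    linarith
  have hg1 : 1 < g := by
    rw [hg, one_lt_div hden]
    exact hτq
  have hlg : 0 < Real.log g := Real.log_pos hg1
  refine ⟨Real.log g / (2 * M), by positivity, ?_⟩
  filter_upwards [eventually_ge_atTop M] with n hn
  have hne' : {m | ∃ W : Finset (Fin n → ι), IsJoinCover f A n W ∧ W.card = m}.Nonempty := by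
    choose σ hσ using hcov
    exact ⟨_, Finset.univ, fun y => ⟨fun i => σ (f^[i] y), Finset.mem_univ _,
      fun i => hσ (f^[i] y)⟩, rfl⟩
  obtain ⟨W, hW, hWc⟩ := Nat.sInf_mem hne'
  have hWc' : (joinNumber f A n : ℝ) = W.card := by
    unfold joinNumber
    rw [hWc]
  rw [hWc']
  set K := n / M with hK
  have hK1 : 1 ≤ K := (Nat.one_le_div_iff hM).2 hn
  have hKM : K * M ≤ n := Nat.div_mul_le_self n M
  have h1 := card_join_ge f hρ hc hA' x hx hM hS hq rfl hτ0 hτ1 hK1 hKM hW
  have h2 : g ^ K ≤ W.card := by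
    rw [hg, div_pow, div_le_iff₀ (by positivity)]
    exact h1
  refine le_trans ?_ h2
  have h3 : g ^ K = Real.exp (Real.log g * K) := by
    rw [mul_comm, Real.exp_nat_mul, Real.exp_log (by linarith)]
  rw [h3]
  apply Real.exp_le_exp.2
  have h4 : (n : ℝ) ≤ 2 * M * K := by
    have h5 : n < (K + 1) * M := by
      have h6 := Nat.div_add_mod n M
      have h7 := Nat.mod_lt n hM
      rw [← hK] at h6
      calc n = M * K + n % M := h6.symm
        _ < M * K + M := by omega
        _ = (K + 1) * M := by ring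
    have h6 : (K + 1) * M ≤ 2 * M * K := by nlinarith
    exact_mod_cast (h5.le.trans h6)
  rw [div_mul_eq_mul_div, div_le_iff₀ (by positivity)]
  nlinarith

/-- Two points in the measure center give positive topological entropy. -/
theorem entropy_of_center [CompactSpace X] [MeasurableSpace X] [BorelSpace X] (f : X → X)
    (hf : Continuous f) (hP : ASP f ∨ AASP f ∨ AlmostSpec f)
    (hc : (measureCenter f).Nontrivial) : 0 < Dynamics.coverEntropy f (Set.univ : Set X) := by
  obtain ⟨p, hp, q, hq, hpq⟩ := hc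
  have hd : 0 < dist p q := dist_pos.mpr hpq
  set a : Bool → X := fun b => if b then p else q with ha
  have ha' : ∀ b, a b ∈ measureCenter f := by
    intro b
    cases b
    · exact hq
    · exact hp
  obtain ⟨c, hc, hvis⟩ := exists_visits f hf a ha' (ρ := dist p q / 3) (by positivity)
  have hcd : 0 < c * (dist p q / 3) := by positivity
  refine entropy_pos f hcd ?_ (star_of_P f hP (by positivity))
  intro M _
  obtain ⟨x, hx⟩ := hvis M
  refine ⟨x true, x false, ?_⟩
  have h1 : c * (dist p q / 3) * M = c * M * (dist p q / 3) := by ring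
  rw [h1]
  have hx' : c * M ≤
      (((range M).filter fun t => ∀ i, dist (f^[t] (x i)) (a i) < dist p q / 3).card : ℝ) := by
    convert hx
  calc c * M * (dist p q / 3) ≤
      (((range M).filter fun t => ∀ i, dist (f^[t] (x i)) (a i) < dist p q / 3).card : ℝ) *
        (dist p q / 3) := mul_le_mul_of_nonneg_right hx' (by positivity)
    _ = ∑ _t ∈ (range M).filter (fun t => ∀ i, dist (f^[t] (x i)) (a i) < dist p q / 3),
          dist p q / 3 := by rw [Finset.sum_const, nsmul_eq_mul]
    _ ≤ ∑ t ∈ (range M).filter (fun t => ∀ i, dist (f^[t] (x i)) (a i) < dist p q / 3),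
          dist (f^[t] (x true)) (f^[t] (x false)) := by
        refine Finset.sum_le_sum fun t ht => ?_
        have h2 := (Finset.mem_filter.1 ht).2
        have h3 : dist (f^[t] (x true)) p < dist p q / 3 := h2 true
        have h4 : dist (f^[t] (x false)) q < dist p q / 3 := h2 false
        have h5 := dist_triangle p (f^[t] (x true)) q
        have h6 := dist_triangle (f^[t] (x true)) (f^[t] (x false)) q
        rw [dist_comm p (f^[t] (x true))] at h5
        linarith
    _ ≤ _ := Finset.sum_le_sum_of_subset_of_nonneg (Finset.filter_subset _ _)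
        (fun t _ _ => dist_nonneg)

end Pool.Agent.Helper92.Asp
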